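import Mathlib

/-!
# Graphs of non-linear growth have arbitrarily many infinite Voronoi cells (MP_2b3d15_co, Q1)
-/

set_option autoImplicit false

universe u

namespace Pool.Agent.Results.MP_2b3d15_co.ManyInfiniteCells

variable {V : Type u}

/-- `G` is locally finite: every vertex has finitely many neighbours. -/
def LocFinite (G : SimpleGraph V) : Prop := ∀ v, (G.neighborSet v).Finite

/-- `G` is vertex-transitive. -/
def VertexTransitive (G : SimpleGraph V) : Prop := ∀ u v : V, ∃ φ : G ≃g G, φ u = v

/-- The ball `B(v, r)`. -/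
def ball (G : SimpleGraph V) (v : V) (r : ℕ) : Set V := {u | G.dist u v ≤ r}

/-- `G` has linear growth: `|B(v, r)|` is bounded by a linear function of `r`. -/
def LinearGrowth (G : SimpleGraph V) : Prop :=
  ∃ a b : ℕ, ∀ v : V, ∀ r : ℕ, (ball G v r).ncard ≤ a * r + b

/-- The Voronoi cell `C(v, T)` of the site `v`. -/
def cell (G : SimpleGraph V) (T : Finset V) (v : V) : Set V :=
  {u | ∀ v' ∈ T, G.dist u v ≤ G.dist u v'}

/-- `I(T)`, the number of sites in `T` whose Voronoi cell is infinite. -/
noncomputable def I (G : SimpleGraph V) (T : Finset V) : ℕ :=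
  Set.ncard {v | v ∈ T ∧ (cell G T v).Infinite}

/-- `M(G)`, the supremum of `I(T)` over all finite nonempty sets `T` of vertices. -/
noncomputable def M (G : SimpleGraph V) : ℕ∞ :=
  ⨆ (T : Finset V) (_ : T.Nonempty), (I G T : ℕ∞)

lemma ball_finite {G : SimpleGraph V} (hc : G.Connected) (hl : LocFinite G) (o : V) :
    ∀ r, (ball G o r).Finite := by
  intro r
  induction r with
  | zero =>
    refine (Set.finite_singleton o).subset ?_
    intro u hu
    have : G.dist u o = 0 := Nat.le_zero.1 hu
    exact (hc.dist_eq_zero_iff.1 this)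
  | succ r ih =>
    have hsub : ball G o (r + 1) ⊆ ball G o r ∪ ⋃ w ∈ ball G o r, G.neighborSet w := by
      intro u hu
      by_cases h : G.dist u o ≤ r
      · exact Or.inl h
      · right
        have hd : G.dist u o = r + 1 := le_antisymm hu (by omega)
        obtain ⟨p, hp⟩ := hc.exists_walk_length_eq_dist u o
        cases p with
        | nil => rw [SimpleGraph.dist_self] at hd; omega
        | cons hadj q =>
          rename_i w
          rw [SimpleGraph.Walk.length_cons] at hp
          have hw : G.dist w o ≤ r := (SimpleGraph.dist_le q).trans (by omega)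
          exact Set.mem_biUnion (show w ∈ ball G o r from hw) hadj.symm
    exact (ih.union (ih.biUnion fun w _ => hl w)).subset hsub

/-- If some ball of radius `r` has more than `n (2 r + 1)` vertices, then there is a set of at least
`n + 1` sites all of whose cells are infinite. -/
lemma exists_sites [Infinite V] {G : SimpleGraph V} (hc : G.Connected) (hl : LocFinite G) (o : V)
    (n r : ℕ) (h : n * (2 * r + 1) < (ball G o r).ncard) :
    ∃ T : Finset V, n < T.card ∧ ∀ v ∈ T, (cell G T v).Infinite := by
  classical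
  have hfin := ball_finite hc hl o r
  set B : Finset V := hfin.toFinset with hB
  have hmem : ∀ v, v ∈ B ↔ G.dist v o ≤ r := fun v => by rw [hB, Set.Finite.mem_toFinset]; rfl
  have hcard : B.card = (ball G o r).ncard := (Set.ncard_eq_toFinset_card _ hfin).symm
  -- the normalised distance
  let f : V → V → ℕ := fun u v => G.dist u v + r - G.dist u o
  have hf : ∀ u, ∀ v ∈ B, G.dist u o ≤ G.dist u v + r ∧ f u v ≤ 2 * r := by
    intro u v hv
    have h1 := (hmem v).1 hv
    have h2 := hc.dist_triangle (u := u) (v := v) (w := o)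
    have h3 := hc.dist_triangle (u := u) (v := o) (w := v)
    rw [SimpleGraph.dist_comm (u := o) (v := v)] at h3
    refine ⟨by omega, ?_⟩
    show G.dist u v + r - G.dist u o ≤ 2 * r
    omega
  have key : ∀ u, ∃ T : Finset V, T ⊆ B ∧ n < T.card ∧ ∀ v ∈ T, ∀ v' ∈ T,
      G.dist u v = G.dist u v' := by
    intro u
    obtain ⟨c, -, hc'⟩ := Finset.exists_lt_card_fiber_of_mul_lt_card_of_maps_to
      (s := B) (t := Finset.range (2 * r + 1)) (f := f u) (n := n)
      (fun v hv => Finset.mem_range.2 (Nat.lt_succ_of_le (hf u v hv).2))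
      (by rw [Finset.card_range, hcard, mul_comm]; exact h)
    refine ⟨B.filter fun v => f u v = c, Finset.filter_subset _ _, hc', ?_⟩
    intro v hv v' hv'
    rw [Finset.mem_filter] at hv hv'
    have h1 := (hf u v hv.1).1
    have h2 := (hf u v' hv'.1).1
    have h3 : G.dist u v + r - G.dist u o = G.dist u v' + r - G.dist u o := hv.2.trans hv'.2.symm
    omega
  choose T hT1 hT2 hT3 using key
  obtain ⟨T0, hT0⟩ := Finite.exists_infinite_fiber (fun u : V =>
    (⟨T u, Finset.mem_powerset.2 (hT1 u)⟩ : {x // x ∈ B.powerset}))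
  have hfib : (Set.Infinite {u : V | T u = T0.1}) := by
    have h1 : ((fun u : V => (⟨T u, Finset.mem_powerset.2 (hT1 u)⟩ : {x // x ∈ B.powerset})) ⁻¹'
      {T0}) = {u : V | T u = T0.1} := by
      ext u
      exact ⟨fun h => congrArg Subtype.val h, fun h => Subtype.ext h⟩
    rw [← h1]
    exact Set.infinite_coe_iff.1 hT0
  obtain ⟨u0, hu0⟩ := hfib.nonempty
  refine ⟨T0.1, by rw [← hu0]; exact hT2 u0, fun v hv => ?_⟩
  refine hfib.mono ?_
  intro u hu v' hv'
  have hu : T u = T0.1 := hu
  rw [← hu] at hv hv'
  exact (hT3 u v hv v' hv').le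

/-- For connected locally finite infinite graphs (vertex-transitive or not). -/
theorem M_eq_top [Infinite V] {G : SimpleGraph V} (hc : G.Connected) (hl : LocFinite G)
    (hg : ¬ LinearGrowth G) : M G = ⊤ := by
  rw [ENat.eq_top_iff_forall_ge]
  intro n
  have : ∃ v : V, ∃ r : ℕ, n * (2 * r + 1) < (ball G v r).ncard := by
    by_contra h
    push Not at h
    exact hg ⟨2 * n, n, fun v r => (h v r).trans (by nlinarith)⟩
  obtain ⟨o, r, h⟩ := this
  obtain ⟨T, hT, hT2⟩ := exists_sites hc hl o n r h
  have hne : T.Nonempty := Finset.card_pos.1 (by omega)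
  have h1 : I G T = T.card := by
    unfold I
    have : {v | v ∈ T ∧ (cell G T v).Infinite} = (T : Set V) := by
      ext v
      exact ⟨fun h => h.1, fun h => ⟨h, hT2 v h⟩⟩
    rw [this, Set.ncard_coe_finset]
  calc (n : ℕ∞) ≤ (I G T : ℕ∞) := by rw [h1]; exact_mod_cast hT.le
    _ ≤ M G := le_iSup₂_of_le T hne le_rfl

/-- Every infinite connected locally finite vertex-transitive graph of non-linear growth has
`M(G) = ∞`: for every `n` there is a finite set of sites with at least `n` infinite Voronoi
cells. -/
theorem result (V : Type u) [Infinite V] (G : SimpleGraph V) (hc : G.Connected)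
    (hl : LocFinite G) (_ht : VertexTransitive G) (hg : ¬ LinearGrowth G) : M G = ⊤ :=
  M_eq_top hc hl hg

end Pool.Agent.Results.MP_2b3d15_co.ManyInfiniteCells
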